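import Mathlib

/-!
# Finite unit norm tight frames of every length in real `ell_1^n`

For every `n ≥ 1` and every `N ≥ n` the real Banach space `ell_1^n` has a FUNTF of length `N`.

Construction: write `N = q n + r` with `q ≥ 1` and `0 ≤ r < n`.  Take `q` copies of each unit vector
`e_j`, paired with the norming functional that is `1` at `j` and `- r / (q n)` elsewhere, and `r`
copies of the vector `(1/n, ..., 1/n)` paired with the functional `(1, ..., 1)`.
-/

namespace Pool.Agent.Results.MP_580194_an.RealEllOneFUNTF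

open Finset

/-- `IsFUNTF x f`: the pairs `(x i, f i)`, `i < N`, form a finite unit norm tight frame of length
`N` for the real Banach space `X`: `‖x i‖ = ‖f i‖ = f i (x i) = 1` for all `i`, and
`∑ i, f i y • x i = (N / dim X) • y` for all `y`. -/
structure IsFUNTF {X : Type*} [NormedAddCommGroup X] [NormedSpace ℝ X] {N : ℕ}
    (x : Fin N → X) (f : Fin N → StrongDual ℝ X) : Prop where
  norm_vec : ∀ i, ‖x i‖ = 1
  norm_functional : ∀ i, ‖f i‖ = 1
  pairing : ∀ i, f i (x i) = 1
  tight : ∀ y : X, ∑ i, f i y • x i = ((N : ℝ) / (Module.finrank ℝ X : ℝ)) • y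

/-- Real `ell_1^n`: `ℝ^n` with the norm `∑ |x_j|`. -/
abbrev Ell1 (n : ℕ) : Type := PiLp 1 (fun _ : Fin n => ℝ)

/-- The functional `y ↦ ∑ g_j y_j` on real `ell_1^n`. -/
noncomputable def fn {n : ℕ} (g : Fin n → ℝ) : StrongDual ℝ (Ell1 n) :=
  LinearMap.toContinuousLinearMap
    { toFun := fun y => ∑ j, g j * y j
      map_add' := by
        intro y z
        simp [mul_add, Finset.sum_add_distrib]
      map_smul' := by
        intro c y
        simp only [PiLp.smul_apply, smul_eq_mul, RingHom.id_apply, Finset.mul_sum]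
        exact Finset.sum_congr rfl fun j _ => by ring }

theorem fn_apply {n : ℕ} (g : Fin n → ℝ) (y : Ell1 n) : fn g y = ∑ j, g j * y j := rfl

theorem norm_ell1 {n : ℕ} (y : Ell1 n) : ‖y‖ = ∑ j, |y j| := by
  rw [PiLp.norm_eq_sum (by norm_num)]
  simp

theorem norm_fn_le {n : ℕ} (g : Fin n → ℝ) (hg : ∀ j, |g j| ≤ 1) : ‖fn g‖ ≤ 1 := by
  refine ContinuousLinearMap.opNorm_le_bound _ zero_le_one fun y => ?_
  rw [fn_apply, one_mul, norm_ell1, Real.norm_eq_abs]
  refine (Finset.abs_sum_le_sum_abs _ _).trans (Finset.sum_le_sum fun j _ => ?_)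
  rw [abs_mul]
  exact mul_le_of_le_one_left (abs_nonneg _) (hg j)

theorem norm_fn_eq {n : ℕ} (g : Fin n → ℝ) (hg : ∀ j, |g j| ≤ 1) (x : Ell1 n) (hx : ‖x‖ = 1)
    (hgx : fn g x = 1) : ‖fn g‖ = 1 := by
  refine le_antisymm (norm_fn_le g hg) ?_
  have h := (fn g).le_opNorm x
  rw [hgx, hx, mul_one, norm_one] at h
  exact h

/-- **Real `ell_1^n` has a FUNTF of every length `N ≥ n`.** -/
theorem result : ∀ n : ℕ, 1 ≤ n → ∀ N : ℕ, n ≤ N →
    ∃ (x : Fin N → Ell1 n) (f : Fin N → StrongDual ℝ (Ell1 n)), IsFUNTF x f := by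
  intro n hn N hN
  obtain ⟨q, r, hq, hr, hNqr⟩ : ∃ q r : ℕ, 1 ≤ q ∧ r ≤ q * n ∧ N = q * n + r := by
    refine ⟨N / n, N % n, (Nat.one_le_div_iff (by omega)).2 hN, ?_, ?_⟩
    · have h1 : N % n < n := Nat.mod_lt _ (by omega)
      have h2 : 1 ≤ N / n := (Nat.one_le_div_iff (by omega)).2 hN
      nlinarith
    · rw [mul_comm]; exact (Nat.div_add_mod N n).symm
  have hn0 : (n : ℝ) ≠ 0 := by positivity
  have hq0 : (q : ℝ) ≠ 0 := by positivity
  let e : Fin N ≃ (Fin q × Fin n) ⊕ Fin r :=
    Fintype.equivOfCardEq (by simp [hNqr])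
  -- the vectors and the functionals
  let v : (Fin q × Fin n) ⊕ Fin r → Ell1 n := Sum.elim
    (fun p => WithLp.toLp 1 (Pi.single p.2 (1 : ℝ)))
    (fun _ => WithLp.toLp 1 (fun _ => (1 : ℝ) / n))
  let g : (Fin q × Fin n) ⊕ Fin r → (Fin n → ℝ) := Sum.elim
    (fun p j => if j = p.2 then 1 else -((r : ℝ) / (q * n)))
    (fun _ _ => 1)
  have hv : ∀ i, ‖v i‖ = 1 := by
    rintro (p | l)
    · rw [norm_ell1]
      simp only [v, Sum.elim_inl]
      rw [Finset.sum_eq_single p.2]
      · simp
      · intro j _ hj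
        simp [hj]
      · simp
    · rw [norm_ell1]
      simp only [v, Sum.elim_inr]
      simp [hn0]
  have hg : ∀ i j, |g i j| ≤ 1 := by
    rintro (p | l) j
    · simp only [g, Sum.elim_inl]
      split_ifs
      · simp
      · rw [abs_neg, abs_of_nonneg (by positivity), div_le_one (by positivity)]
        exact_mod_cast hr
    · simp [g]
  have hgv : ∀ i, fn (g i) (v i) = 1 := by
    rintro (p | l)
    · rw [fn_apply]
      simp only [v, g, Sum.elim_inl]
      rw [Finset.sum_eq_single p.2]
      · simp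
      · intro j _ hj
        simp [hj]
      · simp
    · rw [fn_apply]
      simp [v, g, hn0]
  refine ⟨fun i => v (e i), fun i => fn (g (e i)), ⟨fun i => hv _, fun i => ?_, fun i => hgv _, ?_⟩⟩
  · exact norm_fn_eq _ (hg _) _ (hv _) (hgv _)
  · intro y
    rw [Equiv.sum_comp e (fun i => fn (g i) y • v i)]
    have hdim : Module.finrank ℝ (Ell1 n) = n := by
      rw [(WithLp.linearEquiv 1 ℝ (Fin n → ℝ)).finrank_eq, Module.finrank_fin_fun]
    rw [hdim]
    ext k
    have hNr : (N : ℝ) = q * n + r := by rw [hNqr]; push_cast; ring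
    set S : ℝ := ∑ j, y j with hS
    -- the contribution of one functional of the first kind
    have h1 : ∀ p : Fin q × Fin n,
        fn (g (Sum.inl p)) y = y p.2 - ((r : ℝ) / (q * n)) * (S - y p.2) := by
      intro p
      rw [fn_apply]
      have : ∀ j, g (Sum.inl p) j * y j
          = -((r : ℝ) / (q * n)) * y j
            + (if j = p.2 then (1 + (r : ℝ) / (q * n)) * y j else 0) := by
        intro j
        simp only [g, Sum.elim_inl]
        split_ifs <;> ring
      rw [Finset.sum_congr rfl fun j _ => this j, Finset.sum_add_distrib, ← Finset.mul_sum,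
        Finset.sum_ite_eq' Finset.univ p.2]
      simp only [Finset.mem_univ, if_true]
      rw [← hS]
      ring
    have h2 : ∀ l : Fin r, fn (g (Sum.inr l)) y = S := by
      intro l
      rw [fn_apply]
      simp [g, hS]
    rw [Fintype.sum_sum_type, PiLp.add_apply, PiLp.smul_apply, smul_eq_mul]
    rw [WithLp.ofLp_sum, WithLp.ofLp_sum, Finset.sum_apply, Finset.sum_apply]
    simp only [PiLp.smul_apply, smul_eq_mul, h1, h2]
    have h3 : ∑ p : Fin q × Fin n, (y p.2 - ((r : ℝ) / (q * n)) * (S - y p.2)) *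
        (v (Sum.inl p)) k = q * (y k - ((r : ℝ) / (q * n)) * (S - y k)) := by
      rw [Fintype.sum_prod_type]
      have : ∀ c : Fin q, ∑ j : Fin n, (y j - ((r : ℝ) / (q * n)) * (S - y j)) *
          (v (Sum.inl (c, j))) k = (y k - ((r : ℝ) / (q * n)) * (S - y k)) := by
        intro c
        rw [Finset.sum_eq_single k]
        · simp [v]
        · intro j _ hj
          simp [v, Ne.symm hj]
        · simp
      rw [Finset.sum_congr rfl fun c _ => this c, Finset.sum_const, Finset.card_univ,
        Fintype.card_fin, nsmul_eq_mul]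
    have h4 : ∑ l : Fin r, S * (v (Sum.inr l)) k = r * (S / n) := by
      simp only [v, Sum.elim_inr, Finset.sum_const, Finset.card_univ, Fintype.card_fin,
        nsmul_eq_mul]
      ring
    rw [h3, h4, hNr]
    field_simp
    ring

end Pool.Agent.Results.MP_580194_an.RealEllOneFUNTF
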